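import Pool.Agent.H654R5.PT.Stm
import Pool.Agent.H549R2.PM9

/-!
# The list of candidates is computed in polynomial time (task PCA)
-/

namespace Pool.Agent.H654R5.PT.PCA

open Pool.Agent.NPC

theorem head_getD {α β : Type} [TEnc α] [TEnc β] {l : α → List β} (hl : NPC.Poly l) (d : β) :
    NPC.Poly (fun a => (l a).head?.getD d) :=
  (NPC.Poly.optCases (h := fun _ b => b) (NPC.Poly.head? hl) (NPC.Poly.const d)
    (NPC.Poly.snd NPC.Poly.id)).congr fun a => by
      cases (l a).head? <;> rfl

theorem size_upoly {α : Type} [TEnc α] {n : α → ℕ} (hn : NPC.Poly n) :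
    UPoly (fun a => Nat.size (n a)) := by
  refine (UPoly.length (NPC.Poly.natBits hn)).congr fun a => ?_
  show List.replicate (n a).bits.length () = List.replicate (n a).size ()
  rw [Nat.size_eq_bits_len]

theorem gI_poly {α : Type} [TEnc α] {n : α → ℕ} (hn : NPC.Poly n) :
    NPC.Poly (fun a => gI (n a)) := by
  have hs : UPoly (fun a => Nat.size (n a)) := size_upoly hn
  have hs' : UPoly (fun p : α × ℕ => Nat.size (n p.1)) := hs.comp (NPC.Poly.fst NPC.Poly.id)
  have h1 : NPC.Poly (fun a => (List.range (Nat.size (n a) + 1)).map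
      (fun i => 2 ^ (min i (Nat.size (n a)) + 1))) := by
    refine NPC.Poly.map (F := fun (a : α) (i : ℕ) => 2 ^ (min i (Nat.size (n a)) + 1))
      (UPoly.add hs (UPoly.const 1)).range ?_
    exact NPC.H549PM.upoly_pow2 (UPoly.add (NPC.H549PM.upoly_min (NPC.Poly.snd NPC.Poly.id) hs')
      (UPoly.const 1))
  have h2 : NPC.Poly (fun a => ((List.range (Nat.size (n a) + 1)).map
      (fun i => 2 ^ (min i (Nat.size (n a)) + 1))).filter
        (fun g => decide (Nat.size (n a) ≤ g))) :=
    NPC.Poly.filter (p := fun (a : α) (g : ℕ) => decide (Nat.size (n a) ≤ g)) h1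
      (NPC.Poly.decide_le hs'.toPoly (NPC.Poly.snd NPC.Poly.id))
  refine (head_getD h2 2).congr fun a => ?_
  unfold gI
  rw [List.head?_filter]
  congr 2
  refine List.map_congr_left fun i hi => ?_
  rw [List.mem_range] at hi
  rw [Nat.min_eq_left (by omega)]

theorem gI_log (h2 : S_CLS) : LogPar (fun e : List Bool => gI e.length) := by
  have hl : UPoly (fun e : List Bool => e.length) := UPoly.length (l := fun e : List Bool => e) NPC.Poly.id
  have hb : UPoly (fun e : List Bool => (e.length + 2) * (e.length + 2)) :=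
    UPoly.mul (UPoly.add hl (UPoly.const 2)) (UPoly.add hl (UPoly.const 2))
  have hle : ∀ m, 2 ^ gI m ≤ (m + 2) * (m + 2) := fun m => by
    rw [← sq]
    exact (h2.1 m).2.2
  have h3 : UPoly (fun e : List Bool => gI e.length) :=
    UPoly.of_le (gI_poly hl.toPoly) hb fun e => (Nat.lt_two_pow_self).le.trans (hle e.length)
  exact ⟨h3, UPoly.of_le (NPC.H549PM.upoly_pow2 h3) hb fun e => hle e.length⟩

theorem replicate_poly {α β : Type} [TEnc α] [TEnc β] {n : α → ℕ} (hn : UPoly n) (b : β) :
    NPC.Poly (fun a => List.replicate (n a) b) := by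
  refine (NPC.Poly.map (F := fun (_ : α) (_ : ℕ) => b) hn.range (NPC.Poly.const b)).congr
    fun a => ?_
  rw [List.map_const', List.length_range]

theorem padTo_poly {α : Type} [TEnc α] {k : α → ℕ} {x : α → List Bool} (hk : UPoly k)
    (hx : NPC.Poly x) : NPC.Poly (fun a => padTo (k a) (x a)) := by
  have h1 : UPoly (fun a => k a - (x a).length) :=
    UPoly.of_le (NPC.Poly.sub hk.toPoly (NPC.Poly.length hx)) hk fun _ => Nat.sub_le _ _
  exact NPC.Poly.append hx (replicate_poly h1 false)

theorem PCA_proof (h1 : S_PAD) (h2 : S_CLS) (h3 : S_PPA) : S_PCA := by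
  have hg := gI_log h2
  have hl : UPoly (fun e : List Bool => e.length) := UPoly.length (l := fun e : List Bool => e) NPC.Poly.id
  have ha : UPoly (fun e : List Bool => aa (gI e.length)) := (h3 _ hg).2.1.1
  have hit : NPC.Poly (fun e : List Bool => item e) :=
    padTo_poly hg.2 (NPC.Poly.append NPC.Poly.id (NPC.Poly.const [true]))
  have hlv : NPC.Poly (fun e : List Bool => lvls e.length) := by
    refine NPC.Poly.reverse ?_
    refine NPC.Poly.filter (p := fun (e : List Bool) (N : ℕ) =>
      decide (N % gI e.length = gI e.length / 2) && decide (aa (gI e.length) < N)) ?_ ?_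
    · exact (UPoly.add (UPoly.add (UPoly.add hl ha) hg.1) (UPoly.const 5)).range
    · have hg' : NPC.Poly (fun p : List Bool × ℕ => gI p.1.length) :=
        hg.1.toPoly.comp (NPC.Poly.fst NPC.Poly.id)
      have ha' : NPC.Poly (fun p : List Bool × ℕ => aa (gI p.1.length)) :=
        ha.toPoly.comp (NPC.Poly.fst NPC.Poly.id)
      exact NPC.Poly.and (NPC.Poly.decide_eq (NPC.Poly.mod (NPC.Poly.snd NPC.Poly.id) hg')
        (NPC.Poly.div hg' (NPC.Poly.const 2)))
        (NPC.Poly.decide_lt ha' (NPC.Poly.snd NPC.Poly.id))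
  -- the levels are bounded
  have hb : UPoly (fun e : List Bool => e.length + aa (gI e.length) + gI e.length + 5) :=
    UPoly.add (UPoly.add (UPoly.add hl ha) hg.1) (UPoly.const 5)
  have hN : UPoly (fun p : List Bool × ℕ => min (p.2 - aa (gI p.1.length))
      (p.1.length + aa (gI p.1.length) + gI p.1.length + 5)) :=
    NPC.H549PM.upoly_min (NPC.Poly.sub (NPC.Poly.snd NPC.Poly.id)
      (ha.toPoly.comp (NPC.Poly.fst NPC.Poly.id))) (hb.comp (NPC.Poly.fst NPC.Poly.id))
  have hg2 : LogPar (fun p : List Bool × ℕ => gI p.1.length) :=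
    ⟨hg.1.comp (NPC.Poly.fst NPC.Poly.id), hg.2.comp (NPC.Poly.fst NPC.Poly.id)⟩
  have hmain : NPC.Poly (fun e : List Bool => (lvls e.length).flatMap (fun N =>
      (addr (gI e.length) (min (N - aa (gI e.length))
        (e.length + aa (gI e.length) + gI e.length + 5)) (item e)).map (fun c => (N, c)))) := by
    refine NPC.Poly.flatMap (F := fun (e : List Bool) (N : ℕ) =>
      (addr (gI e.length) (min (N - aa (gI e.length))
        (e.length + aa (gI e.length) + gI e.length + 5)) (item e)).map (fun c => (N, c))) hlv ?_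
    refine NPC.Poly.map (F := fun (p : List Bool × ℕ) (c : List Bool) => (p.2, c)) ?_ ?_
    · exact h1 _ _ _ hg2 hN (hit.comp (NPC.Poly.fst NPC.Poly.id))
    · exact NPC.Poly.pair (NPC.Poly.snd (NPC.Poly.fst NPC.Poly.id)) (NPC.Poly.snd NPC.Poly.id)
  refine hmain.congr fun e => ?_
  unfold cands
  refine List.flatMap_congr fun N hN => ?_
  have h4 := ((h2.2.1 e.length N).1 hN).2.2
  rw [Nat.min_eq_left (by omega)]

end Pool.Agent.H654R5.PT.PCA
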