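import Pool.Agent.H654R5.PT.Stm

/-!
# The extractor is computed in polynomial time (task PE1)
-/

namespace Pool.Agent.H654R5.PT.PE1

open Pool.Agent.NPC

theorem take_poly {α β : Type} [TEnc α] [TEnc β] {n : α → ℕ} {l : α → List β} (hn : NPC.Poly n)
    (hl : NPC.Poly l) : NPC.Poly (fun a => (l a).take (n a)) := by
  have h1 : NPC.Poly (fun a => ((l a).zipIdx.filter (fun p => decide (p.2 < n a))).map
      (fun p => p.1)) := by
    refine NPC.Poly.map (F := fun (_ : α) (p : β × ℕ) => p.1) ?_ (NPC.Poly.fst (NPC.Poly.snd NPC.Poly.id))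
    exact NPC.Poly.filter (p := fun (a : α) (p : β × ℕ) => decide (p.2 < n a)) (NPC.Poly.zipIdx hl)
      (NPC.Poly.decide_lt (NPC.Poly.snd (NPC.Poly.snd NPC.Poly.id)) (hn.comp (NPC.Poly.fst NPC.Poly.id)))
  refine h1.congr fun a => ?_
  generalize l a = L
  generalize n a = N
  have key : ∀ (L : List β) (k N : ℕ), ((L.zipIdx k).filter (fun p => decide (p.2 < k + N))).map
      (fun p => p.1) = L.take N := by
    intro L
    induction L with
    | nil => intro k N; simp
    | cons b L ih =>
      intro k N
      rw [List.zipIdx_cons]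
      cases N with
      | zero =>
        rw [List.take_zero, List.map_eq_nil_iff, List.filter_eq_nil_iff]
        intro p hp
        have h2 : k ≤ p.2 := by
          rcases List.mem_cons.1 hp with rfl | hp
          · exact le_rfl
          · have := List.le_snd_of_mem_zipIdx hp
            omega
        simp only [decide_eq_true_eq]
        omega
      | succ N =>
        rw [List.take_succ_cons, List.filter_cons_of_pos (by simp), List.map_cons]
        congr 1
        have h3 := ih (k + 1) N
        rw [← h3]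
        congr 2
        funext p
        congr 1
        rw [show k + 1 + N = k + (N + 1) by ring]
  have h2 := key L 0 N
  rw [Nat.zero_add] at h2
  exact h2

theorem PE1_proof (h1 : S_PCO) (h2 : S_PDS) : S_PE1 := by
  intro α _ g B τ x s hg hB hτ hx hs
  have hg' : LogPar (fun p : α × List ℕ => g p.1) :=
    ⟨hg.1.comp (NPC.Poly.fst NPC.Poly.id), hg.2.comp (NPC.Poly.fst NPC.Poly.id)⟩
  have h3 : NPC.Poly (fun a => (dsg (g a) (B a)).take (τ a)) :=
    take_poly hτ.toPoly (h2 g B hg hB)
  refine NPC.Poly.map (F := fun (a : α) (S : List ℕ) =>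
    code (g a) (x a) (S.map (fun k => (s a).getD k false))) h3 ?_
  refine h1 _ _ _ hg' (hx.comp (NPC.Poly.fst NPC.Poly.id)) ?_
  refine NPC.Poly.map (F := fun (p : α × List ℕ) (k : ℕ) => (s p.1).getD k false)
    (NPC.Poly.snd NPC.Poly.id) ?_
  exact NPC.Poly.getD (hs.comp (NPC.Poly.fst (NPC.Poly.fst NPC.Poly.id))) (NPC.Poly.snd NPC.Poly.id) (NPC.Poly.const false)

end Pool.Agent.H654R5.PT.PE1
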